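import Pool.Agent.helper28.PV.SpecS

set_option autoImplicit false

namespace Pool.Agent.PV

open Pool.Agent.CZ

/-- the relations without indices larger than `k` -/
def FRE_R (R : AddSubgroup (ℕ →₀ ℤ)) (k : ℕ) : AddSubgroup (ℕ →₀ ℤ) where
  carrier := {r | r ∈ R ∧ ∀ i, k < i → r i = 0}
  add_mem' := by
    rintro a b ⟨ha, ha'⟩ ⟨hb, hb'⟩
    exact ⟨R.add_mem ha hb, fun i hi => by rw [Finsupp.add_apply, ha' i hi, hb' i hi, add_zero]⟩
  zero_mem' := ⟨R.zero_mem, fun i _ => rfl⟩
  neg_mem' := by
    rintro a ⟨ha, ha'⟩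
    exact ⟨R.neg_mem ha, fun i hi => by rw [Finsupp.neg_apply, ha' i hi, neg_zero]⟩

theorem FRE (hTRG : TRG_stmt) : FRE_stmt := by
  intro S _ _
  obtain ⟨s, hs⟩ := exists_surjective_nat S
  let g : ℕ → S := fun n => if Even n then s (n / 2) else 0
  let q : (ℕ →₀ ℤ) →+ S := Finsupp.liftAddHom (fun n => zmultiplesHom S (g n))
  have hq1 : ∀ n, q (Finsupp.single n 1) = g n := by
    intro n
    change Finsupp.liftAddHom (fun n => zmultiplesHom S (g n)) (Finsupp.single n 1) = g n
    rw [Finsupp.liftAddHom_apply_single]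
    simp
  set R := q.ker with hR
  have hgen : ∀ k, ∃ n : ℤ, (FRE_R R k).map (Finsupp.applyAddHom k) = AddSubgroup.closure {n} :=
    fun k => Int.subgroup_cyclic _
  choose n hn using hgen
  have hmem : ∀ k, ∃ ρ : ℕ →₀ ℤ, ρ ∈ FRE_R R k ∧ ρ k = n k := by
    intro k
    have h1 : n k ∈ (FRE_R R k).map (Finsupp.applyAddHom k) := by
      rw [hn k]
      exact AddSubgroup.subset_closure rfl
    obtain ⟨ρ, h2, h3⟩ := h1
    exact ⟨ρ, h2, h3⟩
  choose ρ hρ hρk using hmem
  have hodd : ∀ k, ¬ Even k → n k ≠ 0 := by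
    intro k hk h0
    have h1 : (1 : ℤ) ∈ (FRE_R R k).map (Finsupp.applyAddHom k) := by
      refine ⟨Finsupp.single k 1, ⟨?_, ?_⟩, ?_⟩
      · show Finsupp.single k 1 ∈ q.ker
        rw [AddMonoidHom.mem_ker, hq1]
        exact if_neg hk
      · intro i hi
        exact Finsupp.single_eq_of_ne (by omega)
      · exact Finsupp.single_eq_same
    rw [hn k, h0, AddSubgroup.mem_closure_singleton] at h1
    obtain ⟨z, hz⟩ := h1
    simp at hz
  have hinf : (setOf (fun k => n k ≠ 0)).Infinite := by
    have h1 : Set.range (fun m : ℕ => 2 * m + 1) ⊆ setOf (fun k => n k ≠ 0) := by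
      rintro _ ⟨m, rfl⟩
      refine hodd _ ?_
      rw [Nat.not_even_iff_odd]
      exact ⟨m, rfl⟩
    refine Set.Infinite.mono h1 (Set.infinite_range_of_injective ?_)
    intro a b hab
    simpa using hab
  set κ := Nat.nth (fun k => n k ≠ 0) with hκ
  have hκm : StrictMono κ := Nat.nth_strictMono hinf
  have hκn : ∀ m, n (κ m) ≠ 0 := fun m => Nat.nth_mem_of_infinite hinf m
  have hκr : ∀ k, n k ≠ 0 → ∃ m, κ m = k := by
    intro k hk
    have h1 : k ∈ Set.range κ := by
      rw [hκ, Nat.range_nth_of_infinite hinf]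
      exact hk
    exact h1
  refine ⟨fun m => ρ (κ m), q, ?_, ?_, ?_⟩
  · refine hTRG _ κ hκm ?_ ?_
    · intro m
      rw [hρk]
      exact hκn m
    · intro m i hi
      exact (hρ (κ m)).2 i hi
  · intro x
    obtain ⟨m, hm⟩ := hs x
    refine ⟨Finsupp.single (2 * m) 1, ?_⟩
    rw [hq1]
    have h1 : Even (2 * m) := even_two_mul m
    show (if Even (2 * m) then s (2 * m / 2) else 0) = x
    rw [if_pos h1, Nat.mul_div_cancel_left m (by norm_num), hm]
  · refine le_antisymm ?_ ?_
    · have key : ∀ k : ℕ, ∀ r ∈ R, (∀ i, k ≤ i → r i = 0) →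
          r ∈ AddSubgroup.closure (Set.range fun m => ρ (κ m)) := by
        intro k
        induction k with
        | zero =>
          intro r _ h
          have : r = 0 := by
            ext i
            exact h i (Nat.zero_le i)
          rw [this]
          exact AddSubgroup.zero_mem _
        | succ k ih =>
          intro r hr h
          have h1 : r k ∈ (FRE_R R k).map (Finsupp.applyAddHom k) :=
            ⟨r, ⟨hr, fun i hi => h i hi⟩, rfl⟩
          rw [hn k, AddSubgroup.mem_closure_singleton] at h1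
          obtain ⟨z, hz⟩ := h1
          by_cases hnk : n k = 0
          · refine ih r hr ?_
            intro i hi
            rcases Nat.eq_or_lt_of_le hi with h2 | h2
            · rw [← h2, ← hz, hnk, smul_zero]
            · exact h i h2
          · obtain ⟨m, hm⟩ := hκr k hnk
            have h3 : ρ k ∈ AddSubgroup.closure (Set.range fun m => ρ (κ m)) := by
              refine AddSubgroup.subset_closure ⟨m, ?_⟩
              show ρ (κ m) = ρ k
              rw [hm]
            have h4 : r - z • ρ k ∈ AddSubgroup.closure (Set.range fun m => ρ (κ m)) := by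
              refine ih _ (R.sub_mem hr (R.zsmul_mem (hρ k).1 z)) ?_
              intro i hi
              rw [Finsupp.sub_apply, Finsupp.smul_apply]
              rcases Nat.eq_or_lt_of_le hi with h2 | h2
              · rw [← h2, ← hz, hρk, sub_self]
              · rw [h i h2, (hρ k).2 i h2, smul_zero, sub_zero]
            have h5 := AddSubgroup.add_mem _ h4 (AddSubgroup.zsmul_mem _ h3 z)
            rwa [sub_add_cancel] at h5
      intro r hr
      refine key (r.support.sup id + 1) r hr ?_
      intro i hi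
      by_contra hne
      have h1 : i ∈ r.support := Finsupp.mem_support_iff.2 hne
      have h2 : i ≤ r.support.sup id := Finset.le_sup (f := id) h1
      omega
    · rw [AddSubgroup.closure_le]
      rintro _ ⟨m, rfl⟩
      exact (hρ (κ m)).1

end Pool.Agent.PV
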