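import Pool.Agent.helper28.PV.SpecS
import Pool.Agent.helper28.PV.FRE
import Pool.Agent.helper9.PV.HEF
import Pool.Agent.helper8.PV.HEM
import Pool.Agent.helper99.PV.HEP
import Pool.Agent.helper83.PV.HK0
import Pool.Agent.helper52.PV.HK1
import Pool.Agent.helper75.PV.KAP
import Pool.Agent.helper99.PV.LAM
import Pool.Agent.helper3.PV.PRE
import Pool.Agent.helper90.PV.SUB
import Pool.Agent.helper13.PV.TRG

/-!
# Project pv, block G, half 1: assembly
-/

set_option autoImplicit false

namespace Pool.Agent.PV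

open Pool.Agent.CZ

/-- the Hawaiian earring with a self map with prescribed cokernel on `K₁` -/
theorem PRE_all (hK1M : K1M_stmt) (hFUN : FUN_stmt) (hMS0 : MS0_stmt) (hMS1 : MS1_stmt) (hKS : KS_stmt)
    (hKC : KC_stmt) : PRE_stmt :=
  PRE (FRE TRG) HEP (HEF LAM (KAP hK1M)) (HK0 hMS0 HEM hKS hKC hFUN)
    (HK1 hMS1 HEM hKS hKC (KAP hK1M) hFUN) (KAP hK1M)

/-- closed star subalgebras of `C(X)` are algebras of functions on quotients -/
theorem SUB_all : SUB_stmt := SUB

end Pool.Agent.PV
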