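import Pool.Agent.helper77.PV.SpecK

set_option autoImplicit false

namespace Pool.Agent.PV

open Pool.Agent.CZ Pool.Agent.PVH

theorem KNE (hKN1 : KN1_stmt) (hKSG : KSG_stmt) (hMAI : MAI_stmt) (hCOE : COE_stmt) : KNE_stmt := by
  intro X _ _ _ _ α hmin A _ ι u hcp G₀ _ g G₁ _ E _ _ _ K ρ hinv
  obtain ⟨φ, ψ, τ, hφ, hτ, haff, hpair⟩ := hinv
  refine ⟨?_, ?_⟩
  · obtain ⟨c, hc⟩ := hCOE X α A ι u hcp
    obtain ⟨δ, hδ⟩ := hKN1 X α A ι u c hc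
    obtain ⟨G', hG', ⟨e⟩⟩ := hKSG (K1 A) δ _ hδ
    exact ⟨G', hG', ⟨ψ.symm.trans e⟩⟩
  · obtain ⟨H, S, hcompl, h1, htf, ht⟩ := hMAI X α A ι u hcp hmin
    refine ⟨φ.mapAddSubgroup H, φ.mapAddSubgroup S, (φ.mapAddSubgroup).isCompl hcompl, ?_, ?_, ?_⟩
    · exact ⟨unitCls A, h1, hφ⟩
    · rintro n _ hn ⟨h, hh, rfl⟩ h0
      have h2 : φ (n • h) = φ 0 := by
        rw [map_nsmul, map_zero]
        exact h0
      have h3 := htf n h hn hh (φ.injective h2)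
      change φ h = 0
      rw [h3, map_zero]
    · rintro _ ⟨s, hs, rfl⟩
      ext t
      have h2 := ht (τ t) s hs
      rw [hpair] at h2
      exact_mod_cast h2

end Pool.Agent.PV
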