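import Pool.Agent.helper45.PV.DefsG
import Pool.Agent.helper77.PV.SpecA

/-!
# Project pv (MP_376aaf_an), block G, half 1: the Hawaiian earring, presentations, quotients. Rows pvs:*

RULES. One file per row: `Pool/Agent/<seat>/PV/XXX.lean`, `import Pool.Agent.helper28.PV.SpecS`,
`namespace Pool.Agent.PV`, `open Pool.Agent.CZ`, auxiliary lemmas prefixed `XXX_`. Theorem line:
`theorem XXX (h : YYY_stmt) .. : XXX_stmt` (allowed hypotheses: those listed in the docstring as (from YYY, ZZZ)). No
double quotes. The proof of every row is in its docstring.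
-/

set_option autoImplicit false

open scoped Matrix Topology
open Filter

namespace Pool.Agent.PV

open Pool.Agent.CZ

/-! ## The Hawaiian earring -/

/-- the Hawaiian earring: sequences in the circle with at most one non-zero term -/
def HE : Type := {x : ℕ → UnitAddCircle // ∀ i j, i ≠ j → x i = 0 ∨ x j = 0}

instance : TopologicalSpace HE :=
  inferInstanceAs (TopologicalSpace {x : ℕ → UnitAddCircle // ∀ i j, i ≠ j → x i = 0 ∨ x j = 0})

instance : T2Space HE :=
  inferInstanceAs (T2Space {x : ℕ → UnitAddCircle // ∀ i j, i ≠ j → x i = 0 ∨ x j = 0})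

instance : SecondCountableTopology HE :=
  TopologicalSpace.Subtype.secondCountableTopology
    {x : ℕ → UnitAddCircle | ∀ i j, i ≠ j → x i = 0 ∨ x j = 0}

instance : CompactSpace HE := by
  have h : IsClosed {x : ℕ → UnitAddCircle | ∀ i j, i ≠ j → x i = 0 ∨ x j = 0} := by
    simp only [Set.ofPred_forall]
    refine isClosed_iInter fun i => isClosed_iInter fun j => isClosed_iInter fun _ => ?_
    exact (isClosed_singleton.preimage (continuous_apply i)).union
      (isClosed_singleton.preimage (continuous_apply j))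
  exact isCompact_iff_compactSpace.1 h.isCompact

instance : TopologicalSpace.MetrizableSpace HE :=
  TopologicalSpace.metrizableSpace_of_t3_secondCountable HE

/-- the `k`-th coordinate -/
def pr (k : ℕ) : C(HE, UnitAddCircle) :=
  ⟨fun x => x.1 k, (continuous_apply k).comp continuous_subtype_val⟩

/-- the inclusion of the `k`-th circle -/
def inj (k : ℕ) : C(UnitAddCircle, HE) where
  toFun t := ⟨Pi.single k t, by
    intro i j hij
    by_cases hi : i = k
    · right
      rw [Pi.single_eq_of_ne (fun h => hij (hi.trans h.symm))]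
    · left
      rw [Pi.single_eq_of_ne hi]⟩
  continuous_toFun := by
    refine Continuous.subtype_mk ?_ _
    exact continuous_single (A := fun _ : ℕ => UnitAddCircle) k

/-- ROW pvs:HEP (short). The base point is `inj 0 0`. If `x` has only zero terms it is the base point. Otherwise `x = inj k (a : circle)`, `a : ℝ` (`x k ≠ 0`),
and `s ↦ inj k ((s * a : ℝ) : circle)` is a path from the base point (`inj k 0 = inj 0 0`). (`JoinedIn`/`Joined` from the base point; `PathConnectedSpace`.) -/
def HEP_stmt : Prop := PathConnectedSpace HE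

/-- ROW pvs:HEM (medium). `j` = constants. `pr k ∘ inj k = id`, `pr l ∘ inj k = 0` for `l ≠ k`. `iso`: norm of a constant (HE nonempty). `ran`: if all `c ∘ inj k` are
constant then `c` is constant (every point is `inj k t`, all circles contain the base point). `dense`: let `T_n : HE → HE` put the coordinates `≥ n` equal to `0` (continuous). Then
`c ∘ T_n ∘ inj k` is constant for `k ≥ n`, and `c ∘ T_n → c` uniformly: `c` is continuous on a compact space; if not, there are `x_n` with `|c(T_n x_n) - c(x_n)| ≥ ε`; a subsequence of `x_n` converges to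
`x` and then `T_n x_n → x` too (coordinatewise: the `i`-th coordinates of `T_n x_n` and `x_n` agree for `n > i`). Or: `HE` is uniformly embedded in the product, `T_n → id` uniformly. -/
def HEM_stmt : Prop := MSplit (Algebra.ofId ℂ C(HE, ℂ)) (fun k => pbC ℂ (inj k)) (fun k => pbC ℂ (pr k))

/-! ## Classes of maps to the circle -/

/-- the invertible function `x ↦ e^(2πi u(x))` as a `1 × 1` matrix -/
noncomputable def wU {X : Type} [TopologicalSpace X] (u : C(X, UnitAddCircle)) :
    (Matrix Unit Unit C(X, ℂ))ˣ where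
  val := Matrix.of fun _ _ => (⟨fun x => fourier 1 (u x), (map_continuous (fourier 1)).comp u.continuous⟩ : C(X, ℂ))
  inv := Matrix.of fun _ _ => (⟨fun x => fourier (-1) (u x), (map_continuous (fourier (-1))).comp u.continuous⟩ : C(X, ℂ))
  val_inv := by
    ext i j x
    rw [Matrix.mul_apply]
    simp only [Finset.univ_unique, Finset.sum_singleton, Matrix.of_apply]
    change (fourier 1 (u x) : ℂ) * (fourier (-1) (u x) : ℂ) = 1
    rw [← fourier_add]
    simp
  inv_val := by
    ext i j x
    rw [Matrix.mul_apply]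
    simp only [Finset.univ_unique, Finset.sum_singleton, Matrix.of_apply]
    change (fourier (-1) (u x) : ℂ) * (fourier 1 (u x) : ℂ) = 1
    rw [← fourier_add]
    simp

/-- the class in `K₁(C(X))` of `x ↦ e^(2πi u(x))` -/
noncomputable def kap {X : Type} [TopologicalSpace X] (u : C(X, UnitAddCircle)) : K1 C(X, ℂ) := k1 (wU u)

/-- ROW pvs:KAP (short-medium; from K1M). (1) `wU (u + v) = wU u * wU v` (`fourier 1 (a + b) = fourier 1 a * fourier 1 b`). (2) `wU 0 = 1`; (3) integer multiples: (1), (2) and induction on `n`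
(`n ↦ kap (n • u)` is additive). (4) naturality: `k1map_k1`, `umap _ (wU u) = wU (u.comp f)`. (5) homotopy: `γ(s) = wU (u + s δ)`, entries `x ↦ fourier 1 (u x + (s δ(x) : circle))`, a continuous path of units. -/
def KAP_stmt : Prop := (∀ (X : Type) [TopologicalSpace X] (u v : C(X, UnitAddCircle)), kap (u + v) = kap u + kap v) ∧
  (∀ (X : Type) [TopologicalSpace X], kap (0 : C(X, UnitAddCircle)) = 0) ∧
  (∀ (X : Type) [TopologicalSpace X] (u : C(X, UnitAddCircle)) (n : ℤ), kap (n • u) = n • kap u) ∧
  (∀ (X Y : Type) [TopologicalSpace X] [TopologicalSpace Y] (f : C(X, Y)) (hf : Continuous (pbC ℂ f).toRingHom)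
    (u : C(Y, UnitAddCircle)), k1map (pbC ℂ f).toRingHom hf (kap u) = kap (u.comp f)) ∧
  ∀ (X : Type) [TopologicalSpace X] (u v : C(X, UnitAddCircle)) (δ : C(X, ℝ)),
    (∀ x, v x = u x + ((δ x : ℝ) : UnitAddCircle)) → kap v = kap u

/-- ROW pvs:LAM (short-medium). Let `a = 1/(k+2)`, `b = 1/(k+1)` and `μ(t) = min 1 (max 0 ((t - a)/(b - a)))`, `0 ≤ t ≤ 1`, so `μ(0) = 0`, `μ(1) = 1`. `δ k` = the continuous function on the circle
with `δ k (t) = μ(t) - t` for `0 ≤ t ≤ 1` (`AddCircle.liftIco_continuous` / `liftIco_coe_apply`; the values at `0` and `1` agree), `lam k x = x + (δ k x : circle)`, i.e.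
`lam k (t) = (μ(t) : circle)` for `t ∈ [0,1)`. This is `0` unless `a < t < b`; the intervals `(1/(k+2), 1/(k+1))` are disjoint. Onto: `μ` takes all values in `[0,1)` on `[0,1)` (intermediate value, or `t = a + s (b - a)`). -/
def LAM_stmt : Prop := ∃ (lam : ℕ → C(UnitAddCircle, UnitAddCircle)) (δ : ℕ → C(UnitAddCircle, ℝ)),
  (∀ k, lam k 0 = 0) ∧ (∀ k, Function.Surjective (lam k)) ∧ (∀ k l, k ≠ l → ∀ x, lam k x = 0 ∨ lam l x = 0) ∧
  ∀ k x, lam k x = x + ((δ k x : ℝ) : UnitAddCircle)

/-- ROW pvs:HEF (medium; from LAM, KAP). `f(x)_k = ∑_(i ∈ supp c k) c k i • lam k (x_i)`. At most one `x_i`, say `x_m`, is non-zero, so `f(x)_k = c k m • lam k (x_m)` and at most one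
`lam k (x_m)` is non-zero: `f(x) ∈ HE`; continuous (finite sums in each coordinate). Onto: let `y = inj k t`, `t ≠ 0`; choose `i` with `c k i ≠ 0`; the circle is divisible, `lam k` is onto: `c k i • lam k (s) = t`; then
`lam k s ≠ 0`, so `lam l s = 0` for `l ≠ k` and `f (inj i s) = inj k t`; `f (base point) = base point`. Class: `pr k ∘ f = ∑ c k i • (lam k ∘ pr i)`, KAP (1), (2), (3) and
`kap (lam k ∘ pr i) = kap (pr i)` by KAP (5) with `δ k ∘ pr i`. -/
def HEF_stmt : Prop := ∀ c : ℕ → ℕ →₀ ℤ, (∀ k, c k ≠ 0) → ∃ f : C(HE, HE), Function.Surjective f ∧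
  ∀ k, kap ((pr k).comp f) = (c k).sum fun i n => n • kap (pr i)

/-! ## The K-theory of the Hawaiian earring -/

/-- ROW pvs:HK0 (short-medium; from MS0, HEM, KS, KC, FUN). MS0 with `I = ℕ`, `C₀ = ℂ`, `D = C(circle)`, `χ = el ℂ`: `z = j_* x + ∑ (r k)_* (y k)`; `y k = 0` by KS (first part), `x = n [1]` by KC,
`j_* [1] = [1]` (FUN). -/
def HK0_stmt : Prop := ∀ z : K0 C(HE, ℂ), ∃ n : ℤ, z = n • unitCls C(HE, ℂ)

/-- ROW pvs:HK1 (medium; from MS1, HEM, KS, KC, KAP, FUN). `Φ(y) = ∑ y_k • kap (pr k)` (`Finsupp.liftAddHom` or `Finsupp.sum`). `kap (pr k) = (r k)_* kap(id)` (KAP (4)) and `kap id` is the class of KS (`wU id` has the entry `zl ℂ`).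
Onto: MS1: `z = j_* x + ∑ (r k)_* (y k)`, `x = 0` (KC), `y k = n_k • kap id` (KS; `n_k = 0` if `y k = 0`, to get a finitely supported function: choose `n_k` only on the support). Injective: `Φ(y) = 0` gives
`∑ (r k)_* (y_k • kap id) = 0`, so `y_k • kap id = 0` (MS1) and `y_k = 0` (KS). -/
def HK1_stmt : Prop := ∃ Φ : (ℕ →₀ ℤ) ≃+ K1 C(HE, ℂ), ∀ k, Φ (Finsupp.single k 1) = kap (pr k)

/-! ## Presentations of countable abelian groups -/

/-- ROW pvs:TRG (short). Triangular families are independent: `∑ z_n r_n = 0` with some `z_n ≠ 0`: take the largest such `n` (a finite set) and compare the coefficients at `κ n`: `r_m (κ n) = 0` for `m < n`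
(`κ m < κ n`), so `z_n r_n(κ n) = 0`. -/
def TRG_stmt : Prop := ∀ (r : ℕ → ℕ →₀ ℤ) (κ : ℕ → ℕ), StrictMono κ → (∀ n, r n (κ n) ≠ 0) →
  (∀ n i, κ n < i → r n i = 0) → LinearIndependent ℤ r

/-- ROW pvs:FRE (medium; from TRG). Let `g : ℕ → S` be onto with `g n = 0` for all odd `n` (`exists_surjective_nat`, `g (2n) = s n`), `q (single n 1) = g n`, `R = q.ker`. For `k ∈ ℕ` let `I_k` be the set of
the `m ∈ ℤ` such that some `r ∈ R` has `r k = m` and `r i = 0` for `i > k`: a subgroup of `ℤ`, generated by some `n_k` (`Int.subgroup_cyclic` / `AddSubgroup.isAddCyclic`..., or `Submodule.IsPrincipal`); choose such an `r = ρ_k` with `ρ_k k = n_k`. Let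
`K = {k | n_k ≠ 0}`; odd `k` are in `K` (`single k 1 ∈ R`), so `K` is infinite; `κ` = its increasing enumeration (`Nat.nth`, `Nat.nth_strictMono`, `Nat.range_nth_of_infinite`), `c n = ρ_(κ n)`: independent by TRG. They generate `R`: let `r ∈ R`, `r ≠ 0`, `k` the largest element of the
support, strong induction on `k`: `r k ∈ I_k`, `r k = m n_k`, so `n_k ≠ 0`, `k ∈ K`, `r - m ρ_k ∈ R` has only smaller indices. -/
def FRE_stmt : Prop := ∀ (S : Type) [AddCommGroup S] [Countable S], ∃ (c : ℕ → ℕ →₀ ℤ) (q : (ℕ →₀ ℤ) →+ S),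
  LinearIndependent ℤ c ∧ Function.Surjective q ∧ q.ker = AddSubgroup.closure (Set.range c)

/-! ## Targets -/

/-- ROW pvs:PRE (medium; from FRE, HEP, HEF, HK0, HK1, KAP). `X = HE`, `c`, `q₀` from FRE (`c k ≠ 0` by independence), `f` from HEF, `Φ` from HK1. With `γ : (ℕ →₀ ℤ) →+ (ℕ →₀ ℤ)`, `γ (single k n) = n • c k`:
`f_* (Φ y) = Φ (γ y)` (check on `single k 1`: KAP (4), HEF; `Φ (c k) = ∑ c k i • kap (pr i)`). `γ` is injective (independence), its range is `AddSubgroup.closure (range c)`. `q = q₀ ∘ Φ⁻¹`. -/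
def PRE_row : Prop := PRE_stmt

/-- ROW pvs:SUB (medium). `C(X, ℂ)` is separable (`X` compact metrizable; instance for `SecondCountableTopology C(X, ℂ)` or `SeparableSpace`), so `R` has a dense sequence `r_n` (subspace of a separable metrizable space).
`Y` = range of `x ↦ (r_n x)_n` in `ℕ → ℂ` (compact: image of a compact space; metrizable: subspace), `p` = the map onto it. Let `A = {h : C(Y, ℂ) | h.comp p ∈ R}`: a closed star subalgebra (comap of `R` under composition with `p`)
which contains the coordinate functions (`y ↦ y_n`, composition with `p` is `r_n`), so it separates points: `A = ⊤` by Stone-Weierstrass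
(`ContinuousMap.starSubalgebra_topologicalClosure_eq_top_of_separatesPoints`). Conversely let `g ∈ R`; if `p x = p x'` then `r_n x = r_n x'` for all `n`, so `g x = g x'` (density), and `p` is a quotient map (continuous surjection from a compact to a Hausdorff space:
`Continuous.isClosedMap`, `IsClosedMap.isQuotientMap`): `g = h ∘ p` (`IsQuotientMap.lift`). -/
def SUB_row : Prop := SUB_stmt

end Pool.Agent.PV
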